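import Mathlib
import Pool.Agent.Y4.P.Jobs

/-!
# The conjugates of the complex structure kill the determinant form
-/

set_option linter.unusedSectionVars false

namespace Pool.Agent.Y291.P

open Matrix Module Pool.Agent.Y90 Pool.Agent.W437.HC Pool.Agent.W437.HD Pool.Agent.TH504.CB
  Pool.Agent.Y4.P
open Pool.Agent.W548.Odd hiding cv
open Pool.Agent.W437.HP (cK cK_mul cK_one)
open Pool.Agent.H204R3.SP (Kills)

noncomputable section

/-- The sum of the determinants with one row transformed is the trace times the determinant. -/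
theorem sum_det_updateRow {n : Type*} [Fintype n] [DecidableEq n] {R : Type*} [CommRing R]
    (U A : Matrix n n R) :
    ∑ k, (U.updateRow k (A *ᵥ U k)).det = A.trace * U.det := by
  have h1 : ∀ k, (U.updateRow k (A *ᵥ U k)).det = (U * Aᵀ * U.adjugate) k k := by
    intro k
    have h2 := Matrix.cramer_transpose_apply U (A *ᵥ U k) k
    rw [← h2, Matrix.cramer_eq_adjugate_mulVec, ← Matrix.adjugate_transpose]
    rw [Matrix.mulVec_transpose, Matrix.mul_apply]
    simp only [vecMul, dotProduct]
    refine Finset.sum_congr rfl fun j _ => ?_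
    congr 1
    rw [Matrix.mul_apply]
    simp only [mulVec, dotProduct, Matrix.transpose_apply]
    refine Finset.sum_congr rfl fun i _ => mul_comm _ _
  rw [Finset.sum_congr rfl fun k _ => h1 k]
  change Matrix.trace (U * Aᵀ * U.adjugate) = _
  rw [Matrix.trace_mul_cycle, Matrix.adjugate_mul, Matrix.smul_mul, Matrix.trace_smul, one_mul,
    Matrix.trace_transpose, smul_eq_mul, mul_comm]

section reg

variable {K : IntermediateField ℚ ℂ} {m : ℕ} (β : Basis (Fin m) ℚ K) {I J : Type}

/-- The coordinates of an element add up to the element. -/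
theorem sum_coord (z : K) : ∑ q, ((β q : K) : ℂ) * ((β.repr z q : ℚ) : ℂ) = (z : ℂ) := by
  have h1 := congrArg (algebraMap K ℂ) (β.sum_repr z)
  rw [map_sum] at h1
  refine Eq.trans (Finset.sum_congr rfl fun q _ => ?_) h1
  rw [Algebra.smul_def, map_mul, mul_comm]
  congr 1

theorem kap_reg [Fintype I] [DecidableEq I] [Fintype J] [DecidableEq J] (A : Matrix I J K) :
    kap β I * cK ℂ (reg β A) = cx A * kap β J := by
  ext i jq
  obtain ⟨j, q⟩ := jq
  rw [Matrix.mul_apply, Matrix.mul_apply, Fintype.sum_prod_type]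
  rw [Finset.sum_eq_single i, Finset.sum_eq_single j]
  · have h1 := sum_coord β (A i j * β q)
    refine Eq.trans (Finset.sum_congr rfl fun p _ => ?_) (h1.trans ?_)
    · simp only [kap, Matrix.of_apply, if_true]
      rfl
    · simp only [kap, Matrix.of_apply, if_true]
      rfl
  · intro b _ hb
    simp only [kap, Matrix.of_apply]
    rw [if_neg hb, mul_zero]
  · intro h
    exact absurd (Finset.mem_univ _) h
  · intro b _ hb
    refine Finset.sum_eq_zero fun p _ => ?_
    simp only [kap, Matrix.of_apply]
    rw [if_neg hb.symm, zero_mul]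
  · intro h
    exact absurd (Finset.mem_univ _) h

theorem kap_blow [Fintype I] [DecidableEq I] [Fintype J] [DecidableEq J] (X : Matrix I J ℂ) :
    kap β I * blow m X = X * kap β J := by
  ext i jq
  obtain ⟨j, q⟩ := jq
  rw [Matrix.mul_apply, Matrix.mul_apply, Fintype.sum_prod_type]
  rw [Finset.sum_eq_single i, Finset.sum_eq_single j]
  · rw [Finset.sum_eq_single q]
    · simp only [kap, blow, Matrix.of_apply, if_true]
      exact mul_comm _ _
    · intro b _ hb
      simp only [kap, blow, Matrix.of_apply, if_true]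
      rw [if_neg hb, mul_zero]
    · intro h
      exact absurd (Finset.mem_univ _) h
  · intro b _ hb
    simp only [kap, Matrix.of_apply]
    rw [if_neg hb, mul_zero]
  · intro h
    exact absurd (Finset.mem_univ _) h
  · intro b _ hb
    refine Finset.sum_eq_zero fun p _ => ?_
    simp only [kap, Matrix.of_apply]
    rw [if_neg hb.symm, zero_mul]
  · intro h
    exact absurd (Finset.mem_univ _) h

theorem cK_map_ofReal {m' n' : Type*} (A : Matrix m' n' ℚ) :
    (cK ℝ A).map (fun x : ℝ => (x : ℂ)) = cK ℂ A := by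
  ext i j
  simp [cK]

theorem cK_map_aut {m' n' : Type*} (A : Matrix m' n' ℚ) (σ : ℂ ≃+* ℂ) :
    (cK ℂ A).map σ = cK ℂ A := by
  ext i j
  simp [cK]

theorem DJ_JB {V N : Type} [Fintype V] [DecidableEq V] [Fintype N] [DecidableEq N]
    (J : Matrix V V ℝ) (P : Matrix V N K) (Q : Matrix N V K) :
    DJ (JB β J P Q) = cK ℂ (reg β Q) * blow m (DJ J) * cK ℂ (reg β P) := by
  have h1 : (JB β J P Q).map (fun x : ℝ => (x : ℂ)) =
      cK ℂ (reg β Q) * blow m (J.map (fun x : ℝ => (x : ℂ))) * cK ℂ (reg β P) := by
    unfold JB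
    have h2 : ∀ {a b c : Type} [Fintype b] (A : Matrix a b ℝ) (B : Matrix b c ℝ),
        (A * B).map (fun x : ℝ => (x : ℂ)) =
          A.map (fun x : ℝ => (x : ℂ)) * B.map (fun x : ℝ => (x : ℂ)) := by
      intro a b c _ A B
      exact Matrix.map_mul (f := Complex.ofRealHom)
    rw [h2, h2, cK_map_ofReal, cK_map_ofReal]
    congr 2
    ext p q
    simp only [blow, Matrix.map_apply, Matrix.of_apply]
    split_ifs
    · rfl
    · exact Complex.ofReal_zero
  unfold DJ
  rw [h1, ← Matrix.smul_mul, ← Matrix.mul_smul]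
  congr 2
  ext p q
  simp only [blow, Matrix.smul_apply, Matrix.of_apply]
  split_ifs
  · rfl
  · exact smul_zero _

theorem DJ_JB_map {V N : Type} [Fintype V] [DecidableEq V] [Fintype N] [DecidableEq N]
    (J : Matrix V V ℝ) (P : Matrix V N K) (Q : Matrix N V K) (σ : ℂ ≃+* ℂ) :
    (DJ (JB β J P Q)).map σ =
      cK ℂ (reg β Q) * blow m ((DJ J).map σ) * cK ℂ (reg β P) := by
  have h2 : ∀ {a b c : Type} [Fintype b] (A : Matrix a b ℂ) (B : Matrix b c ℂ),
      (A * B).map σ = A.map σ * B.map σ := by
    intro a b c _ A B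
    exact Matrix.map_mul (f := σ.toRingHom)
  rw [DJ_JB, h2, h2, cK_map_aut, cK_map_aut]
  congr 2
  ext p q
  simp only [blow, Matrix.map_apply, Matrix.of_apply]
  split_ifs
  · rfl
  · exact map_zero σ

theorem cx_mul {I' : Type} [Fintype J] (A : Matrix I J K) (B : Matrix J I' K) :
    cx (A * B) = cx A * cx B := Matrix.map_mul (f := algebraMap K ℂ)

theorem detK_apply {N : Type} [Fintype N] [DecidableEq N] (v : N → N × Fin m → ℂ) :
    detK β v = Matrix.det (Matrix.of fun k => kap β N *ᵥ v k) := rfl

/-- The conjugates of the complex structure kill the determinant form. -/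
theorem kills_detK {V N : Type} [Fintype V] [DecidableEq V] [Fintype N] [DecidableEq N]
    {J : Matrix V V ℝ} {M : Matrix V V ℚ} {P : Matrix V N K} {Q : Matrix N V K}
    (w : WD J M P Q) (σ : ℂ ≃+* ℂ) :
    Kills (ph (N × Fin m) ((DJ (JB β J P Q)).map σ)) (detK (N := N) β) := by
  intro v
  set A : Matrix N N ℂ := cx Q * (DJ J).map σ * cx P with hA
  have hX : kap β N * (DJ (JB β J P Q)).map σ = A * kap β N := by
    rw [DJ_JB_map, ← Matrix.mul_assoc, ← Matrix.mul_assoc, kap_reg, Matrix.mul_assoc (cx Q),
      kap_blow, Matrix.mul_assoc (cx Q), Matrix.mul_assoc ((DJ J).map σ), kap_reg, hA]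
    simp only [Matrix.mul_assoc]
  have htr : A.trace = 0 := by
    rw [hA, Matrix.mul_assoc, Matrix.trace_mul_comm, Matrix.mul_assoc, ← cx_mul]
    exact w.tr σ
  have h1 := sum_det_updateRow (Matrix.of fun k => kap β N *ᵥ v k) A
  rw [htr, zero_mul] at h1
  rw [← h1]
  refine Finset.sum_congr rfl fun k _ => ?_
  rw [detK_apply]
  congr 1
  ext i j
  by_cases hik : i = k
  · subst hik
    rw [Matrix.updateRow_self]
    simp only [Matrix.of_apply, Function.update_self, ph_apply]
    rw [Matrix.mulVec_mulVec, hX, ← Matrix.mulVec_mulVec]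
    rfl
  · rw [Matrix.updateRow_ne hik]
    simp only [Matrix.of_apply, Function.update_of_ne hik]

theorem kap_smul {N : Type} [Fintype N] [DecidableEq N] (a : K) (v : N × Fin m → ℚ) :
    kap β N *ᵥ cv (reg β (a • (1 : Matrix N N K)) *ᵥ v) = (a : ℂ) • (kap β N *ᵥ cv v) := by
  have h1 : cv (reg β (a • (1 : Matrix N N K)) *ᵥ v) =
      cK ℂ (reg β (a • (1 : Matrix N N K))) *ᵥ cv v := by
    funext i
    simp [cv, cK, mulVec, dotProduct]
  have h2 : cx (a • (1 : Matrix N N K)) = (a : ℂ) • (1 : Matrix N N ℂ) := by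
    ext i j
    by_cases hij : i = j
    · subst hij
      simp [cx]
    · simp [cx, Matrix.one_apply_ne hij]
  rw [h1, Matrix.mulVec_mulVec, kap_reg, h2, Matrix.smul_mul, Matrix.one_mul, Matrix.smul_mulVec]

theorem detK_update {N : Type} [Fintype N] [DecidableEq N] (a : K) (v : N → N × Fin m → ℚ)
    (k : N) :
    detK β (fun i => cv (Function.update v k (reg β (a • (1 : Matrix N N K)) *ᵥ v k) i)) =
      (a : ℂ) * detK β (fun i => cv (v i)) := by
  rw [detK_apply, detK_apply]
  have h1 : (Matrix.of fun i => kap β N *ᵥ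
      cv (Function.update v k (reg β (a • (1 : Matrix N N K)) *ᵥ v k) i)) =
      (Matrix.of fun i => kap β N *ᵥ cv (v i)).updateRow k
        ((a : ℂ) • (Matrix.of fun i => kap β N *ᵥ cv (v i)) k) := by
    ext i j
    by_cases hik : i = k
    · subst hik
      rw [Matrix.updateRow_self]
      simp only [Matrix.of_apply, Function.update_self]
      rw [kap_smul]
      rfl
    · rw [Matrix.updateRow_ne hik]
      simp only [Matrix.of_apply, Function.update_of_ne hik]
  rw [h1, Matrix.det_updateRow_smul, Matrix.updateRow_eq_self]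

theorem ratA_update {N : Type} [Fintype N] [DecidableEq N] (l : ℂ →ₗ[ℚ] ℚ) (a : K)
    (v : N → N × Fin m → ℚ) (k : N) :
    ratA (detK (N := N) β) l
        (Function.update v k (reg β (a • (1 : Matrix N N K)) *ᵥ v k)) =
      ∑ τ : Equiv.Perm N, ((Equiv.Perm.sign τ : ℤ) : ℚ) *
        l ((a : ℂ) * detK β (fun i => cv (v (τ i)))) := by
  rw [ratA_apply]
  refine Finset.sum_congr rfl fun τ _ => ?_
  congr 2
  rw [← detK_update β a (fun i => v (τ i)) (τ.symm k)]
  congr 1
  funext i
  congr 1
  by_cases hik : τ i = k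
  · have h1 : i = τ.symm k := by rw [← hik, Equiv.symm_apply_apply]
    rw [← h1, Function.update_self, hik, Function.update_self]
  · have h1 : i ≠ τ.symm k := fun h => hik (by rw [h, Equiv.apply_symm_apply])
    rw [Function.update_of_ne h1, Function.update_of_ne hik]

end reg

theorem jkill : JKill := by
  intro V N _ _ _ _ K J M P Q w m β
  refine ⟨⟨Submodule.span ℂ (Set.range fun σ : ℂ ≃+* ℂ => (DJ (JB β J P Q)).map σ), ?_, ?_, ?_⟩,
    ?_⟩
  · intro τ X hX
    induction hX using Submodule.span_induction with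
    | mem x h =>
      obtain ⟨σ, rfl⟩ := h
      refine Submodule.subset_span ⟨σ.trans τ, ?_⟩
      ext i j
      rfl
    | zero =>
      have h0 : (0 : Matrix (N × Fin m) (N × Fin m) ℂ).map τ = 0 := by
        ext i j
        simp
      rw [h0]
      exact Submodule.zero_mem _
    | add x y _ _ hx hy =>
      have h0 : (x + y).map τ = x.map τ + y.map τ := by
        ext i j
        simp
      rw [h0]
      exact Submodule.add_mem _ hx hy
    | smul c x _ hx =>
      have h0 : (c • x).map τ = τ c • x.map τ := by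
        ext i j
        simp
      rw [h0]
      exact Submodule.smul_mem _ _ hx
  · refine Submodule.subset_span ⟨RingEquiv.refl ℂ, ?_⟩
    ext i j
    rfl
  · intro X hX
    induction hX using Submodule.span_induction with
    | mem x h =>
      obtain ⟨σ, rfl⟩ := h
      exact act_of_kills (kills_detK β w σ)
    | zero => exact act_zero_left _
    | add x y _ _ hx hy => rw [act_add_left, hx, hy, add_zero]
    | smul c x _ hx => rw [act_smul_left, hx, smul_zero]
  · intro l a v k k'
    rw [ratA_update, ratA_update]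

end

end Pool.Agent.Y291.P
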